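import Mathlib

namespace Pool.Agent.Results.MP_5f67f4_co.Q1

/-- Deletion shadow of a family of words of length `n + 1` over the alphabet `Fin r`. -/
def shadow {r n : ℕ} (F : Finset (Fin (n + 1) → Fin r)) : Finset (Fin n → Fin r) :=
  Finset.univ.filter fun v => ∃ w ∈ F, ∃ i : Fin (n + 1), ∀ j, v j = w (i.succAbove j)

/-- Signature: letter counts, the largest letter first. -/
def sig {r n : ℕ} (w : Fin n → Fin r) (k : Fin r) : ℕ :=
  (Finset.univ.filter fun j => w j = k.rev).card

/-- Lexicographic order on signatures. -/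
def LexLe {r : ℕ} (p q : Fin r → ℕ) : Prop :=
  (∀ i, p i = q i) ∨ ∃ i, p i < q i ∧ ∀ j, j < i → p j = q j

instance {r : ℕ} (p q : Fin r → ℕ) : Decidable (LexLe p q) := by unfold LexLe; infer_instance

/-- The family of words whose signature is at most `s`. -/
def Fam {r : ℕ} (n : ℕ) (s : Fin r → ℕ) : Finset (Fin n → Fin r) :=
  Finset.univ.filter fun w => LexLe (sig w) s

theorem result : ∃ (r n : ℕ) (s : Fin r → ℕ) (G : Finset (Fin (n + 1) → Fin r)),
    2 ≤ r ∧ ∑ i, s i = n + 1 ∧ G.card = (Fam (n + 1) s).card ∧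
    (shadow G).card < (shadow (Fam (n + 1) s)).card := by
  refine ⟨4, 2, ![1, 0, 1, 1], Finset.univ.filter fun w => w 1 ≠ 3 ∧ w 2 ≠ 3, by norm_num,
    by decide, by decide +kernel, by decide +kernel⟩

end Pool.Agent.Results.MP_5f67f4_co.Q1
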